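import Pool.Agent.L7h3.SC.Stm

/-! Project SC: KEY. -/

set_option autoImplicit false

namespace Pool.Agent.L7h46.SC

open Pool.Agent.L7h3.SC

/-- PART KEY. -/
theorem s_KEY (hPB : S_PB) : S_KEY := by
  classical
  intro E _ x hx hcount
  have hinj : ∀ p : ℕ → E, Copy x p → Function.Injective p := by
    intro p hp i j hij
    apply hx
    rw [← dist_eq_zero, ← hp i j, hij, dist_self]
  obtain ⟨c, hc⟩ := hPB E {F | ∃ p, Copy x p ∧ F = Set.range p} 3 (by
    rintro F ⟨p, hp, rfl⟩
    exact ⟨Set.infinite_range_of_injective (hinj p hp), Set.countable_range p⟩) (by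
    intro K hK
    -- the countable union over the injections `K → ℕ`
    have hsub : {F | F ∈ {F | ∃ p, Copy x p ∧ F = Set.range p} ∧ (K : Set E) ⊆ F} ⊆
        ⋃ r : K → ℕ, Set.range '' {p : ℕ → E | Copy x p ∧ ∀ a : K, p (r a) = a} := by
      rintro F ⟨⟨p, hp, rfl⟩, hKF⟩
      have h : ∀ a : K, ∃ n, p n = a := fun a => hKF a.2
      choose r hr using h
      exact Set.mem_iUnion.2 ⟨r, p, ⟨hp, hr⟩, rfl⟩
    refine Set.Countable.mono hsub (Set.countable_iUnion fun r => Set.Countable.image ?_ _)
    by_cases hr : Function.Injective r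
    · let s : Finset ℕ := Finset.univ.image r
      have hs : s.card = 3 := by
        rw [Finset.card_image_of_injective _ hr, Finset.card_univ, Fintype.card_coe, hK]
      have hne : Nonempty K := Fintype.card_pos_iff.1 (by rw [Fintype.card_coe, hK]; norm_num)
      let q : ℕ → E := fun n => ((Function.invFun r n : K) : E)
      refine (hcount s q hs).mono ?_
      rintro p ⟨hp, hpr⟩
      refine ⟨hp, ?_⟩
      intro i hi
      obtain ⟨a, -, rfl⟩ := Finset.mem_image.1 hi
      show p (r a) = ((Function.invFun r (r a) : K) : E)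
      rw [hpr, Function.leftInverse_invFun hr a]
    · have : {p : ℕ → E | Copy x p ∧ ∀ a : K, p (r a) = a} = ∅ := by
        rw [Set.eq_empty_iff_forall_notMem]
        rintro p ⟨hp, hpr⟩
        apply hr
        intro a b hab
        apply Subtype.ext
        rw [← hpr a, ← hpr b, hab]
      rw [this]
      exact Set.countable_empty)
  refine ⟨c, ?_⟩
  intro p hp
  obtain ⟨_, ⟨i, rfl⟩, _, ⟨j, rfl⟩, hij⟩ := hc (Set.range p) ⟨p, hp, rfl⟩
  exact ⟨i, j, hij⟩

end Pool.Agent.L7h46.SC
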