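import Pool.Agent.L7h3.SC.Stm

/-! Project SC: PB (property B). -/

set_option autoImplicit false

namespace Pool.Agent.L7h46.SC

open Pool.Agent.L7h3.SC Cardinal

/-- property B for countable families -/
theorem pb_countable {X : Type} (𝓕 : Set (Set X)) (hc : 𝓕.Countable)
    (hinf : ∀ F ∈ 𝓕, F.Infinite) :
    ∃ c : X → Bool, ∀ F ∈ 𝓕, ∃ x ∈ F, ∃ y ∈ F, c x ≠ c y := by
  classical
  rcases 𝓕.eq_empty_or_nonempty with rfl | hne
  · exact ⟨fun _ => true, fun F hF => absurd hF (Set.notMem_empty F)⟩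
  obtain ⟨F, rfl⟩ := hc.exists_eq_range hne
  have hinf' : ∀ n, (F n).Infinite := fun n => hinf _ ⟨n, rfl⟩
  have pick : ∀ (n : ℕ) (S : Finset X), ∃ x, x ∈ F (n / 2) ∧ x ∉ S := fun n S =>
    (hinf' (n / 2)).exists_notMem_finset S
  choose p hp1 hp2 using pick
  let S : ℕ → Finset X := fun n => Nat.rec ∅ (fun n T => insert (p n T) T) n
  have hS : ∀ n, S (n + 1) = insert (p n (S n)) (S n) := fun n => rfl
  have hmono : Monotone S := monotone_nat_of_le_succ fun n => by
    rw [hS]; exact Finset.subset_insert _ _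
  let g : ℕ → X := fun n => p n (S n)
  have hg1 : ∀ n, g n ∈ F (n / 2) := fun n => hp1 _ _
  have hg2 : Function.Injective g := by
    have h : ∀ m n, m < n → g m ≠ g n := by
      intro m n hmn he
      apply hp2 n (S n)
      show g n ∈ S n
      rw [← he]
      exact hmono (Nat.succ_le_of_lt hmn) (by
        rw [Nat.succ_eq_add_one, hS]; exact Finset.mem_insert_self _ _)
    intro m n he
    rcases lt_trichotomy m n with h' | h' | h'
    · exact absurd he (h m n h')
    · exact h'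
    · exact absurd he.symm (h n m h')
  refine ⟨fun x => decide (∃ n, x = g (2 * n)), ?_⟩
  rintro _ ⟨n, rfl⟩
  refine ⟨g (2 * n), ?_, g (2 * n + 1), ?_, ?_⟩
  · have := hg1 (2 * n)
    rwa [Nat.mul_div_cancel_left n two_pos] at this
  · have := hg1 (2 * n + 1)
    rwa [show (2 * n + 1) / 2 = n by omega] at this
  · have h1 : ∃ m, g (2 * n) = g (2 * m) := ⟨n, rfl⟩
    have h2 : ¬ ∃ m, g (2 * n + 1) = g (2 * m) := by
      rintro ⟨m, hm⟩
      have := hg2 hm
      omega
    show decide (∃ m, g (2 * n) = g (2 * m)) ≠ decide (∃ m, g (2 * n + 1) = g (2 * m))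
    rw [decide_eq_true h1, decide_eq_false h2]
    decide

/-- a language with countably many function symbols of each arity -/
def Lg : FirstOrder.Language.{0, 0} := ⟨fun _ => ℕ, fun _ => Empty⟩

/-- the closure operator -/
theorem exists_cl {X : Type} [Nonempty X] (𝓕 : Set (Set X)) (k : ℕ) (hF : ∀ F ∈ 𝓕, F.Countable)
    (hK : ∀ K : Finset X, K.card = k → {F | F ∈ 𝓕 ∧ (K : Set X) ⊆ F}.Countable) :
    ∃ cl : Set X → Set X, (∀ A, A ⊆ cl A) ∧ (∀ A B, A ⊆ B → cl A ⊆ cl B) ∧
      (∀ A, #(cl A) ≤ max ℵ₀ #A) ∧ ∀ A, ∀ F ∈ 𝓕, ∀ K : Finset X, K.card = k →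
        (K : Set X) ⊆ F → (K : Set X) ⊆ cl A → F ⊆ cl A := by
  classical
  have hG : ∀ K : Finset X, ∃ f : ℕ → X, K.card = k →
      ∀ F ∈ 𝓕, (K : Set X) ⊆ F → F ⊆ Set.range f := by
    intro K
    by_cases hk : K.card = k
    · have h1 : (⋃₀ {F | F ∈ 𝓕 ∧ (K : Set X) ⊆ F}).Countable :=
        (hK K hk).sUnion fun F hF' => hF F hF'.1
      obtain ⟨f, hf⟩ := Set.countable_iff_exists_subset_range.1 h1
      exact ⟨f, fun _ F hF' hKF => (Set.subset_sUnion_of_mem (show F ∈ {F | F ∈ 𝓕 ∧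
        (K : Set X) ⊆ F} from ⟨hF', hKF⟩)).trans hf⟩
    · exact ⟨fun _ => Classical.arbitrary X, fun h => absurd h hk⟩
  choose G hG using hG
  let _ : Lg.Structure X :=
    { funMap := fun {n} m v => G (Finset.univ.image v) m
      RelMap := fun {n} r _ => nomatch r }
  refine ⟨fun A => (FirstOrder.Language.Substructure.closure Lg A : Set X), ?_, ?_, ?_, ?_⟩
  · intro A
    exact FirstOrder.Language.Substructure.subset_closure
  · intro A B hAB
    exact (FirstOrder.Language.Substructure.closure Lg).monotone hAB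
  · intro A
    have h := FirstOrder.Language.Substructure.lift_card_closure_le (L := Lg) (s := A)
    rw [Cardinal.lift_id, Cardinal.lift_id, Cardinal.lift_id] at h
    refine h.trans ?_
    have h1 : #(Σ i, Lg.Functions i) ≤ ℵ₀ := by
      have : ∀ i, Countable (Lg.Functions i) := fun i => inferInstanceAs (Countable ℕ)
      exact Cardinal.mk_le_aleph0
    refine max_le (le_max_left _ _) ?_
    refine (Cardinal.add_le_max _ _).trans ?_
    exact max_le (max_le (le_max_right _ _) (h1.trans (le_max_left _ _))) (le_max_left _ _)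
  · intro A F hF' K hk hKF hKA x hx
    obtain ⟨m, rfl⟩ := hG K hk F hF' hKF hx
    let v : Fin k → X := fun i => ((Finset.equivFinOfCardEq hk).symm i : X)
    have hv : Finset.univ.image v = K := by
      ext y
      rw [Finset.mem_image]
      constructor
      · rintro ⟨i, _, rfl⟩
        exact ((Finset.equivFinOfCardEq hk).symm i).2
      · intro hy
        exact ⟨Finset.equivFinOfCardEq hk ⟨y, hy⟩, Finset.mem_univ _, by
          show ((Finset.equivFinOfCardEq hk).symm (Finset.equivFinOfCardEq hk ⟨y, hy⟩) : X) = y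
          rw [Equiv.symm_apply_apply]⟩
    have h := (FirstOrder.Language.Substructure.closure Lg A).fun_mem (n := k) m v (fun i =>
      hKA ((Finset.equivFinOfCardEq hk).symm i).2)
    have e : FirstOrder.Language.Structure.funMap (L := Lg) (n := k) m v = G K m := by
      show G (Finset.univ.image v) m = G K m
      rw [hv]
    rw [e] at h
    exact h

theorem pb_main (k : ℕ) (κ : Cardinal.{0}) : ∀ (X : Type), #X = κ → ∀ 𝓕 : Set (Set X),
    (∀ F ∈ 𝓕, F.Infinite ∧ F.Countable) →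
    (∀ K : Finset X, K.card = k → {F | F ∈ 𝓕 ∧ (K : Set X) ⊆ F}.Countable) →
    ∃ c : X → Bool, ∀ F ∈ 𝓕, ∃ x ∈ F, ∃ y ∈ F, c x ≠ c y := by
  classical
  induction κ using WellFoundedLT.induction
  rename_i κ ih
  intro X hX 𝓕 hF hK
  by_cases hcount : Countable X
  · apply pb_countable 𝓕 _ (fun F h => (hF F h).1)
    have hsub : 𝓕 ⊆ ⋃ K : {K : Finset X // K.card = k}, {F | F ∈ 𝓕 ∧ (K.1 : Set X) ⊆ F} := by
      intro F h
      obtain ⟨K, hK1, hK2⟩ := (hF F h).1.exists_subset_card_eq k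
      exact Set.mem_iUnion.2 ⟨⟨K, hK2⟩, h, hK1⟩
    exact (Set.countable_iUnion fun K : {K : Finset X // K.card = k} => hK K.1 K.2).mono hsub
  · have hinf : ℵ₀ < #X := by
      rw [← not_le]
      intro h
      exact hcount (Cardinal.mk_le_aleph0_iff.1 h)
    have : Nonempty X := by
      by_contra h
      rw [not_nonempty_iff] at h
      exact hcount inferInstance
    obtain ⟨cl, h1, h2, h3, h4⟩ := exists_cl 𝓕 k (fun F h => (hF F h).2) hK
    obtain ⟨e⟩ : Nonempty (X ≃ (#X).ord.ToType) := Cardinal.eq.1 (by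
      rw [Cardinal.mk_toType, Cardinal.card_ord])
    let C : (#X).ord.ToType → Set X := fun i => cl {y | e y ≤ i}
    have hCmono : ∀ i j, i ≤ j → C i ⊆ C j := fun i j hij => h2 _ _ fun y hy => le_trans hy hij
    have hCcard : ∀ i, #(C i) < #X := by
      intro i
      refine (h3 _).trans_lt (max_lt hinf ?_)
      have e1 : #({y | e y ≤ i} : Set X) ≤ #(Set.Iic i) :=
        Cardinal.mk_le_of_injective (f := fun y : ({y | e y ≤ i} : Set X) =>
          (⟨e y.1, y.2⟩ : Set.Iic i)) (by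
            intro y z hyz
            exact Subtype.ext (e.injective (congrArg Subtype.val hyz)))
      refine e1.trans_lt ?_
      have e2 : Set.Iic i = insert i (Set.Iio i) := by
        ext z
        rw [Set.mem_Iic, Set.mem_insert_iff, Set.mem_Iio, le_iff_eq_or_lt]
      rw [e2]
      have e3 : #(Set.Iio i) < #((#X).ord.ToType) := Cardinal.mk_Iio_lt i (by
        rw [Cardinal.mk_toType, Cardinal.card_ord, Ordinal.type_toType])
      rw [Cardinal.mk_toType, Cardinal.card_ord] at e3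
      refine (Cardinal.mk_insert_le).trans_lt ?_
      exact Cardinal.add_lt_of_lt hinf.le e3 (one_lt_aleph0.trans hinf)
    have hmem : ∀ z, z ∈ C (e z) := fun z => h1 _ (le_refl (e z))
    have hρ : ∀ z, ∃ i, z ∈ C i ∧ ∀ j, z ∈ C j → i ≤ j := fun z =>
      ⟨WellFounded.min (wellFounded_lt) {i | z ∈ C i} ⟨_, hmem z⟩,
        WellFounded.min_mem (wellFounded_lt) {i | z ∈ C i} ⟨_, hmem z⟩,
        fun j hj => not_lt.1 (WellFounded.not_lt_min (wellFounded_lt) {i | z ∈ C i} hj)⟩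
    choose ρ hρ1 hρ2 using hρ
    have key : ∀ i, ∃ c : {z // ρ z = i} → Bool, ∀ F ∈ 𝓕,
        (Subtype.val ⁻¹' F : Set {z // ρ z = i}).Infinite →
        ∃ x : {z // ρ z = i}, x.1 ∈ F ∧ ∃ y : {z // ρ z = i}, y.1 ∈ F ∧ c x ≠ c y := by
      intro i
      have hlt : #{z // ρ z = i} < κ := by
        rw [← hX]
        refine lt_of_le_of_lt ?_ (hCcard i)
        exact Cardinal.mk_le_of_injective (f := fun z : {z // ρ z = i} =>
          (⟨z.1, by have := hρ1 z.1; rw [z.2] at this; exact this⟩ : C i)) (by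
            intro y z hyz
            exact Subtype.ext (congrArg (fun w : C i => w.1) hyz))
      obtain ⟨c, hc⟩ := ih #{z // ρ z = i} hlt {z // ρ z = i} rfl
        {S | S.Infinite ∧ ∃ F ∈ 𝓕, S = Subtype.val ⁻¹' F} (by
          rintro S ⟨hS, F, hF', rfl⟩
          exact ⟨hS, (hF F hF').2.preimage Subtype.val_injective⟩) (by
          intro K hKc
          refine ((hK (K.map (Function.Embedding.subtype _)) (by rw [Finset.card_map, hKc])).image
            (fun F => (Subtype.val ⁻¹' F : Set {z // ρ z = i}))).mono ?_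
          rintro S ⟨⟨hS, F, hF', rfl⟩, hKS⟩
          refine ⟨F, ⟨hF', ?_⟩, rfl⟩
          intro z hz
          rw [Finset.coe_map] at hz
          obtain ⟨w, hw, rfl⟩ := hz
          exact hKS hw)
      exact ⟨c, fun F hF' hinf' => by
        obtain ⟨x, hx, y, hy, hxy⟩ := hc _ ⟨hinf', F, hF', rfl⟩
        exact ⟨x, hx, y, hy, hxy⟩⟩
    choose c hc using key
    refine ⟨fun z => c (ρ z) ⟨z, rfl⟩, ?_⟩
    intro F hF'
    have hTin : ∀ K : Finset X, k + 1 ≤ K.card → (K : Set X) ⊆ F → ∃ z0 ∈ K,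
        ∃ K' : Finset X, K'.card = k ∧ (K' : Set X) ⊆ F ∧ (K' : Set X) ⊆ C (ρ z0) := by
      intro K hKc hKF
      have hne : K.Nonempty := Finset.card_pos.1 (by omega)
      obtain ⟨z0, hz0, hmax⟩ := Finset.exists_max_image K ρ hne
      obtain ⟨K', hK'1, hK'2⟩ := Finset.exists_subset_card_eq (show k ≤ K.card by omega)
      refine ⟨z0, hz0, K', hK'2, fun z hz => hKF (hK'1 hz), fun z hz => ?_⟩
      exact hCmono _ _ (hmax z (hK'1 hz)) (hρ1 z)
    have hTne : {i | ∃ K : Finset X, K.card = k ∧ (K : Set X) ⊆ F ∧ (K : Set X) ⊆ C i}.Nonempty := by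
      obtain ⟨K, hK1, hK2⟩ := (hF F hF').1.exists_subset_card_eq (k + 1)
      obtain ⟨z0, -, h⟩ := hTin K hK2.ge hK1
      exact ⟨_, h⟩
    obtain ⟨x, hxT, hxmin⟩ : ∃ x, (∃ K : Finset X, K.card = k ∧ (K : Set X) ⊆ F ∧
        (K : Set X) ⊆ C x) ∧ ∀ i, (∃ K : Finset X, K.card = k ∧ (K : Set X) ⊆ F ∧
        (K : Set X) ⊆ C i) → x ≤ i :=
      ⟨WellFounded.min (wellFounded_lt) _ hTne, WellFounded.min_mem _ _ hTne,
        fun j hj => not_lt.1 (WellFounded.not_lt_min (wellFounded_lt) {i | ∃ K : Finset X,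
          K.card = k ∧ (K : Set X) ⊆ F ∧ (K : Set X) ⊆ C i} hj)⟩
    have hFC : F ⊆ C x := by
      obtain ⟨K, hK1, hK2, hK3⟩ := hxT
      exact h4 _ F hF' K hK1 hK2 hK3
    have hle : ∀ z ∈ F, ρ z ≤ x := fun z hz => hρ2 z x (hFC hz)
    have hsmall : {z | z ∈ F ∧ ρ z < x}.Finite := by
      by_contra hcon
      obtain ⟨K, hK1, hK2⟩ := Set.Infinite.exists_subset_card_eq hcon (k + 1)
      obtain ⟨z0, hz0, h⟩ := hTin K hK2.ge (fun z hz => (hK1 hz).1)
      exact absurd (hK1 hz0).2 (not_lt.2 (hxmin _ h))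
    have hbig : (Subtype.val ⁻¹' F : Set {z // ρ z = x}).Infinite := by
      intro hfin
      apply (hF F hF').1
      apply (hsmall.union (hfin.image Subtype.val)).subset
      intro z hz
      rcases lt_or_eq_of_le (hle z hz) with h | h
      · exact Or.inl ⟨hz, h⟩
      · exact Or.inr ⟨⟨z, h⟩, hz, rfl⟩
    obtain ⟨u, hu, v, hv, huv⟩ := hc x F hF' hbig
    have e1 : ∀ (i) (w : {z // ρ z = i}), c (ρ w.1) ⟨w.1, rfl⟩ = c i w := by
      rintro i ⟨w, rfl⟩
      rfl
    refine ⟨u.1, hu, v.1, hv, ?_⟩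
    show c (ρ u.1) ⟨u.1, rfl⟩ ≠ c (ρ v.1) ⟨v.1, rfl⟩
    rw [e1 x u, e1 x v]
    exact huv

/-- PART PB. -/
theorem s_PB : S_PB := fun X 𝓕 k h1 h2 => pb_main k _ X rfl 𝓕 h1 h2

end Pool.Agent.L7h46.SC
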